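import Pool.Agent.QA61.Final

/-!
# Infinitely many maximal quasi-arithmetic reflection groups in `Isom(ℍ³)`

There are infinitely many pairwise non-conjugate maximal quasi-arithmetic reflection groups in
`Isom(ℍ³)`; moreover they can be taken cocompact and (in suitable coordinates) all contained in
the group `O(f, ℚ)` of one quadratic form `f` over `ℚ`.  This is the negated form of Q1 of
MP_61642b_gt.  All definitions are in `Pool.Agent.QA61.Defs`.
-/

namespace Pool.Agent.Results.MP_61642b_gt.InfinitelyManyMaximal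

open QA61 Matrix

theorem result : ∃ M : ℕ → Subgroup (GL (Fin 4) ℝ),
    (∀ n, IsMaximalReflectionGroup (M n) ∧ IsQuasiArithmetic (M n) ∧ IsCocompact (M n)) ∧
    (∀ m n, m ≠ n → ¬ AreConjugate (M m) (M n)) ∧
    ∃ (f : Matrix (Fin 4) (Fin 4) ℚ) (P : GL (Fin 4) ℝ),
      (P : Matrix (Fin 4) (Fin 4) ℝ)ᵀ * f.map (fun q : ℚ => (q : ℝ)) *
        (P : Matrix (Fin 4) (Fin 4) ℝ) = QA61.J ∧
      ∀ n, ∀ γ ∈ M n, ∃ N : Matrix (Fin 4) (Fin 4) ℚ,
        ((P * γ * P⁻¹ : GL (Fin 4) ℝ) : Matrix (Fin 4) (Fin 4) ℝ) =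
          N.map (fun q : ℚ => (q : ℝ)) :=
  QA61.main

end Pool.Agent.Results.MP_61642b_gt.InfinitelyManyMaximal
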